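import Pool.Agent.Helper16.CZ.Stmts

/-! TGR: polynomial growth of the towers (MP_7a8f48_an). -/

open Finset Filter MeasureTheory Topology
open scoped ComplexConjugate InnerProductSpace

namespace Pool.Agent.Helper16.CZ

open Pool.Agent.Helper16.AZ (T E Op mm ST_VDH ST_FPV ST_TLR)
open Pool.Agent.Helper16.BZ (EQ GR PD)
open Pool.Agent.Helper16.MD (MS PB Am RW Rich)
open UnitAddTorus (mFourier)

theorem tgr_coe (a : ℝ) : ‖(a : UnitAddCircle)‖ ≤ |a| := by
  have h := QuotientAddGroup.norm_mk_le_norm (S := AddSubgroup.zmultiples (1 : ℝ)) (m := a)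
  exact h

theorem tgr_step {r : ℕ} {lev : Fin r → ℕ} {D : Matrix (Fin r) (Fin r) ℤ}
    {ψ : Fin r → T r → ℝ} {S : T r → T r} {L : ℝ} (hL0 : 0 ≤ L)
    (hL : ∀ i x y, |ψ i x - ψ i y| ≤ L * dist x y)
    (h3 : ∀ i (x y : T r), (∀ j, lev j < lev i → x j = y j) → ψ i x = ψ i y)
    (h4 : ∀ i j, D i j ≠ 0 → lev j < lev i)
    (h5 : ∀ x i, S x i = x i + (∑ j, D i j • x j) + (ψ i x : UnitAddCircle))
    (x y : T r) (i : Fin r) (e : ℝ) (he : 0 ≤ e) (hxy : ∀ j, lev j < lev i → ‖x j - y j‖ ≤ e) :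
    ‖S x i - S y i‖ ≤ ‖x i - y i‖ + ((∑ i, ∑ j, |(D i j : ℝ)|) + L) * e := by
  have hD : ‖∑ j, D i j • (x j - y j)‖ ≤ (∑ i, ∑ j, |(D i j : ℝ)|) * e := by
    have h6 : ‖∑ j, D i j • (x j - y j)‖ ≤ ∑ j, |(D i j : ℝ)| * e := by
      refine (norm_sum_le _ _).trans (Finset.sum_le_sum fun j _ => ?_)
      by_cases hij : D i j = 0
      · rw [hij, zero_smul, norm_zero]
        positivity
      · refine (norm_zsmul_le (D i j) (x j - y j)).trans ?_
        rw [Int.norm_eq_abs]
        exact mul_le_mul_of_nonneg_left (hxy j (h4 i j hij)) (abs_nonneg _)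
    refine h6.trans ?_
    rw [← Finset.sum_mul]
    refine mul_le_mul_of_nonneg_right ?_ he
    exact Finset.single_le_sum (f := fun i => ∑ j, |(D i j : ℝ)|)
      (fun i _ => Finset.sum_nonneg fun j _ => abs_nonneg _) (Finset.mem_univ i)
  have hψ : ‖((ψ i x : ℝ) : UnitAddCircle) - ((ψ i y : ℝ) : UnitAddCircle)‖ ≤ L * e := by
    rw [← AddCircle.coe_sub]
    refine (tgr_coe _).trans ?_
    obtain ⟨y', hy'⟩ : ∃ y' : T r, y' = fun j => if lev j < lev i then y j else x j := ⟨_, rfl⟩
    have h7 : ψ i y' = ψ i y := h3 i y' y fun j hj => by rw [hy']; simp [hj]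
    rw [← h7]
    refine (hL i x y').trans (mul_le_mul_of_nonneg_left ?_ hL0)
    rw [dist_pi_le_iff he]
    intro j
    rw [hy']
    by_cases hj : lev j < lev i
    · simp only [hj, if_true]
      rw [dist_eq_norm]
      exact hxy j hj
    · simp only [hj, if_false, dist_self]
      exact he
  have h8 : S x i - S y i = (x i - y i) + ∑ j, D i j • (x j - y j) +
      (((ψ i x : ℝ) : UnitAddCircle) - ((ψ i y : ℝ) : UnitAddCircle)) := by
    rw [h5 x i, h5 y i]
    have h9 : ∑ j, D i j • (x j - y j) = ∑ j, D i j • x j - ∑ j, D i j • y j := by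
      rw [← Finset.sum_sub_distrib]
      exact Finset.sum_congr rfl fun j _ => smul_sub _ _ _
    rw [h9]
    abel
  rw [h8]
  refine (norm_add_le _ _).trans ?_
  have h10 := norm_add_le (x i - y i) (∑ j, D i j • (x j - y j))
  linarith

/-- the constants -/
noncomputable def tgr_B (C : ℝ) : ℕ → ℝ
  | 0 => 1
  | l + 1 => 1 + C * tgr_B C l

theorem tgr_B_one (C : ℝ) (hC : 0 ≤ C) : ∀ l, 1 ≤ tgr_B C l := by
  intro l
  induction l with
  | zero => exact le_rfl
  | succ l ih =>
    show 1 ≤ 1 + C * tgr_B C l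
    have : 0 ≤ C * tgr_B C l := mul_nonneg hC (by linarith)
    linarith

theorem st_TGR : ST_TGR := by
  intro r lev D ψ S hT
  obtain ⟨⟨L, hL0, hL⟩, -, h3, h4, h5, -, -⟩ := hT
  obtain ⟨C, hC⟩ : ∃ C : ℝ, C = (∑ i, ∑ j, |(D i j : ℝ)|) + L := ⟨_, rfl⟩
  have hC0 : 0 ≤ C := by
    rw [hC]
    have : 0 ≤ ∑ i, ∑ j, |(D i j : ℝ)| :=
      Finset.sum_nonneg fun i _ => Finset.sum_nonneg fun j _ => abs_nonneg _
    linarith
  have main : ∀ (x y : T r) (l : ℕ) (i : Fin r), lev i ≤ l → ∀ n : ℕ,
      ‖(S^[n] x) i - (S^[n] y) i‖ ≤ tgr_B C l * ((n : ℝ) + 1) ^ l * dist x y := by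
    intro x y l
    induction l with
    | zero =>
      intro i hi n
      have h0 : tgr_B C 0 = 1 := rfl
      rw [h0, pow_zero, mul_one, one_mul]
      induction n with
      | zero =>
        rw [Function.iterate_zero, id, id, ← dist_eq_norm]
        exact dist_le_pi_dist x y i
      | succ n ih =>
        rw [Function.iterate_succ_apply', Function.iterate_succ_apply']
        have h6 := tgr_step hL0 hL h3 h4 h5 (S^[n] x) (S^[n] y) i 0 le_rfl
          (fun j hj => by omega)
        rw [mul_zero, add_zero] at h6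
        exact h6.trans ih
    | succ l ihl =>
      intro i hi n
      have hd : 0 ≤ dist x y := dist_nonneg
      have hB : 1 ≤ tgr_B C l := tgr_B_one C hC0 l
      have hcl : ∀ n : ℕ, ‖(S^[n] x) i - (S^[n] y) i‖ ≤
          (1 + C * tgr_B C l * n * ((n : ℝ) + 1) ^ l) * dist x y := by
        intro n
        induction n with
        | zero =>
          rw [Function.iterate_zero, id, id, ← dist_eq_norm]
          have := dist_le_pi_dist x y i
          simpa using this
        | succ n ih =>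
          rw [Function.iterate_succ_apply', Function.iterate_succ_apply']
          have h6 := tgr_step hL0 hL h3 h4 h5 (S^[n] x) (S^[n] y) i
            (tgr_B C l * ((n : ℝ) + 1) ^ l * dist x y) (by positivity)
            (fun j hj => ihl j (by omega) n)
          rw [← hC] at h6
          have h7 : ((n : ℝ) + 1) ^ l ≤ ((n : ℝ) + 1 + 1) ^ l :=
            pow_le_pow_left₀ (by positivity) (by linarith) l
          have h8 : C * tgr_B C l * ((n : ℝ) + 1) * ((n : ℝ) + 1) ^ l * dist x y ≤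
              C * tgr_B C l * ((n : ℝ) + 1) * ((n : ℝ) + 1 + 1) ^ l * dist x y := by
            refine mul_le_mul_of_nonneg_right (mul_le_mul_of_nonneg_left h7 ?_) hd
            have : 0 ≤ C * tgr_B C l := mul_nonneg hC0 (by linarith)
            positivity
          push_cast
          calc ‖S (S^[n] x) i - S (S^[n] y) i‖
              ≤ (1 + C * tgr_B C l * n * ((n : ℝ) + 1) ^ l) * dist x y +
                C * (tgr_B C l * ((n : ℝ) + 1) ^ l * dist x y) := by linarith
            _ = dist x y + C * tgr_B C l * ((n : ℝ) + 1) * ((n : ℝ) + 1) ^ l * dist x y := by ring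
            _ ≤ dist x y + C * tgr_B C l * ((n : ℝ) + 1) * ((n : ℝ) + 1 + 1) ^ l * dist x y := by
              linarith
            _ = _ := by ring
      refine (hcl n).trans (mul_le_mul_of_nonneg_right ?_ hd)
      show _ ≤ (1 + C * tgr_B C l) * ((n : ℝ) + 1) ^ (l + 1)
      have h9 : (1 : ℝ) ≤ ((n : ℝ) + 1) ^ (l + 1) := one_le_pow₀ (by linarith [Nat.cast_nonneg (α := ℝ) n])
      have h10 : 0 ≤ C * tgr_B C l * ((n : ℝ) + 1) ^ l := by
        have : 0 ≤ C * tgr_B C l := mul_nonneg hC0 (by linarith)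
        positivity
      rw [add_mul, one_mul, pow_succ]
      rw [pow_succ] at h9
      nlinarith
  refine ⟨tgr_B C (Finset.univ.sup lev), Finset.univ.sup lev, tgr_B_one C hC0 _, fun n x y => ?_⟩
  have hB : 1 ≤ tgr_B C (Finset.univ.sup lev) := tgr_B_one C hC0 _
  rw [dist_pi_le_iff (by positivity)]
  intro i
  rw [dist_eq_norm]
  exact main x y _ i (Finset.le_sup (Finset.mem_univ i)) n

end Pool.Agent.Helper16.CZ
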